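import Mathlib
import Pool.Agent.Helper562.Imm

/-! Submanifolds of a Euclidean space given by a family of global parametrisations, with the
induced Riemannian metric. -/

open Bundle Bornology Set MeasureTheory Manifold Filter Topology
open scoped ENNReal ContDiff Manifold NNReal

noncomputable section

namespace Pool.Agent.W538.Sub
set_option maxSynthPendingDepth 3
set_option linter.unusedSectionVars false
set_option linter.unusedVariables false

open Pool.Agent.Helper562

/-- A family of smooth charts of a subset `S` of a normed space `F`, with all of `V` as target. -/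
structure CData (F : Type) [NormedAddCommGroup F] [InnerProductSpace ℝ F] (V : Type)
    [NormedAddCommGroup V] [NormedSpace ℝ V] where
  S : Set F
  ι : Type
  U : ι → Set F
  isOpen_U : ∀ c, IsOpen (U c)
  phi : ι → F → V
  psi : ι → V → F
  smooth_phi : ∀ c, ∀ x ∈ U c, ContDiffAt ℝ ∞ (phi c) x
  smooth_psi : ∀ c, ContDiff ℝ ∞ (psi c)
  psi_mem : ∀ c v, psi c v ∈ S
  psi_memU : ∀ c v, psi c v ∈ U c
  phi_psi : ∀ c v, phi c (psi c v) = v
  psi_phi : ∀ c, ∀ x ∈ S, x ∈ U c → psi c (phi c x) = x
  cover : ∀ x ∈ S, ∃ c, x ∈ U c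

variable {F : Type} [NormedAddCommGroup F] [InnerProductSpace ℝ F] {V : Type}
    [NormedAddCommGroup V] [NormedSpace ℝ V]

/-- the manifold -/
def Mfd (d : CData F V) : Type := {x : F // x ∈ d.S}

variable (d : CData F V)

instance : TopologicalSpace (Mfd d) := instTopologicalSpaceSubtype

instance : T2Space (Mfd d) := inferInstanceAs (T2Space {x : F // x ∈ d.S})

instance : T3Space (Mfd d) := inferInstanceAs (T3Space {x : F // x ∈ d.S})

/-- the inclusion -/
def inc (x : Mfd d) : F := x.1

lemma inc_mem (x : Mfd d) : inc d x ∈ d.S := x.2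

lemma continuous_inc : Continuous (inc d) := continuous_subtype_val

lemma inc_inj : Function.Injective (inc d) := fun _ _ h => Subtype.ext h

/-- charts -/
def chart (c : d.ι) : OpenPartialHomeomorph (Mfd d) V where
  toFun x := d.phi c (inc d x)
  invFun y := ⟨d.psi c y, d.psi_mem c y⟩
  source := {x | inc d x ∈ d.U c}
  target := univ
  map_source' x hx := mem_univ _
  map_target' y hy := d.psi_memU c y
  left_inv' x hx := Subtype.ext (d.psi_phi c x.1 x.2 hx)
  right_inv' y hy := d.phi_psi c y
  open_source := (d.isOpen_U c).preimage (continuous_inc d)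
  open_target := isOpen_univ
  continuousOn_toFun := by
    intro x hx
    have h1 : ContinuousAt (d.phi c) (inc d x) := (d.smooth_phi c x.1 hx).continuousAt
    exact (h1.comp (continuous_inc d).continuousAt).continuousWithinAt
  continuousOn_invFun := by
    apply Continuous.continuousOn
    exact Continuous.subtype_mk (d.smooth_psi c).continuous _

/-- index of the preferred chart -/
def idx (x : Mfd d) : d.ι := (d.cover x.1 x.2).choose

lemma idx_spec (x : Mfd d) : inc d x ∈ d.U (idx d x) := (d.cover x.1 x.2).choose_spec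

instance : ChartedSpace V (Mfd d) where
  atlas := range (chart d)
  chartAt x := chart d (idx d x)
  mem_chart_source x := idx_spec d x
  chart_mem_atlas x := mem_range_self _

lemma chartAt_eq (x : Mfd d) : chartAt V x = chart d (idx d x) := rfl

instance : IsManifold 𝓘(ℝ, V) ∞ (Mfd d) := by
  apply isManifold_of_contDiffOn
  rintro _ _ ⟨b, rfl⟩ ⟨c, rfl⟩
  simp only [modelWithCornersSelf_coe, modelWithCornersSelf_coe_symm, Function.comp_id,
    Function.id_comp, range_id, inter_univ, preimage_id]
  intro y hy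
  apply ContDiffAt.contDiffWithinAt
  have hy2 : d.psi b y ∈ d.U c := hy.2
  exact ContDiffAt.comp (g := d.phi c) (f := d.psi b) y (d.smooth_phi c _ hy2)
    (d.smooth_psi b).contDiffAt

lemma contMDiff_inc : ContMDiff 𝓘(ℝ, V) 𝓘(ℝ, F) ∞ (inc d) := by
  intro x
  rw [contMDiffAt_iff]
  refine ⟨(continuous_inc d).continuousAt, ?_⟩
  simp only [mfld_simps]
  apply ContDiff.contDiffWithinAt
  exact d.smooth_psi (idx d x)

/-- A map into the submanifold is smooth as soon as it is smooth in the ambient space. -/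
lemma contMDiffWithinAt_of_inc {W : Type} [NormedAddCommGroup W] [NormedSpace ℝ W] {g : W → Mfd d}
    {s : Set W} {t : W} {n : ℕ∞ω} (hn : n ≤ (∞ : ℕ∞ω))
    (hg : ContDiffWithinAt ℝ n (fun y => inc d (g y)) s t) :
    ContMDiffWithinAt 𝓘(ℝ, W) 𝓘(ℝ, V) n g s t := by
  rw [contMDiffWithinAt_iff_target]
  constructor
  · have h1 : ContinuousWithinAt (fun y => inc d (g y)) s t := hg.continuousWithinAt
    exact (IsInducing.subtypeVal.continuousWithinAt_iff).2 h1
  · rw [contMDiffWithinAt_iff_contDiffWithinAt]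
    have h2 : ContDiffWithinAt ℝ n (fun y => d.phi (idx d (g t)) (inc d (g y))) s t := by
      apply ContDiffAt.comp_contDiffWithinAt (g := d.phi (idx d (g t))) (f := fun y => inc d (g y))
      · exact (d.smooth_phi _ _ (idx_spec d (g t))).of_le hn
      · exact hg
    exact h2

/-- a version with manifold source -/
lemma contMDiff_of_inc {W : Type} [NormedAddCommGroup W] [NormedSpace ℝ W] {N : Type}
    [TopologicalSpace N] [ChartedSpace W N] {g : N → Mfd d}
    (hg : ContMDiff 𝓘(ℝ, W) 𝓘(ℝ, F) ∞ (fun y => inc d (g y))) :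
    ContMDiff 𝓘(ℝ, W) 𝓘(ℝ, V) ∞ g := by
  intro t
  rw [contMDiffAt_iff_target]
  constructor
  · have h1 : ContinuousAt (fun y => inc d (g y)) t := (hg t).continuousAt
    exact (IsInducing.subtypeVal.continuousAt_iff).2 h1
  · have h2 : ContMDiffAt 𝓘(ℝ, W) 𝓘(ℝ, V) ∞ (fun y => d.phi (idx d (g t)) (inc d (g y))) t := by
      apply ContMDiffAt.comp (g := d.phi (idx d (g t))) (f := fun y => inc d (g y))
        (I' := 𝓘(ℝ, F))
      · exact (d.smooth_phi _ _ (idx_spec d (g t))).contMDiffAt
      · exact hg t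
    exact h2

lemma D_inc_inj (x : Mfd d) : Function.Injective (Imm.D (E := V) (inc d) x) := by
  have hx : x ∈ (chartAt V x).source := mem_chart_source V x
  have h1 := (mdifferentiable_chart (I := 𝓘(ℝ, V)) x).mfderiv_injective hx
  have hev : (chartAt V x : Mfd d → V) = fun y => d.phi (idx d x) (inc d y) := rfl
  have hd : DifferentiableAt ℝ (d.phi (idx d x)) (inc d x) :=
    (d.smooth_phi _ _ (idx_spec d x)).differentiableAt (by simp)
  have hi : MDifferentiableAt 𝓘(ℝ, V) 𝓘(ℝ, F) (inc d) x :=
    (contMDiff_inc d x).mdifferentiableAt (by simp)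
  have h2 : mfderiv 𝓘(ℝ, V) 𝓘(ℝ, V) (chartAt V x : Mfd d → V) x =
      (mfderiv 𝓘(ℝ, F) 𝓘(ℝ, V) (d.phi (idx d x)) (inc d x)).comp
        (mfderiv 𝓘(ℝ, V) 𝓘(ℝ, F) (inc d) x) := by
    rw [hev]
    exact mfderiv_comp (I' := 𝓘(ℝ, F)) x hd.mdifferentiableAt hi
  intro v w hvw
  apply h1
  rw [h2]
  exact congrArg (mfderiv 𝓘(ℝ, F) 𝓘(ℝ, V) (d.phi (idx d x)) (inc d x)) hvw

end Pool.Agent.W538.Sub
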