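import Pool.Agent.W538.Sub.Base

/-! The induced Riemannian metric and distance of a submanifold given by charts. -/

open Bundle Bornology Set MeasureTheory Manifold Filter Topology
open scoped ENNReal ContDiff Manifold NNReal

noncomputable section

namespace Pool.Agent.W538.Sub
set_option maxSynthPendingDepth 3
set_option linter.unusedSectionVars false
set_option linter.unusedVariables false

open Pool.Agent.Helper562

variable {F : Type} [NormedAddCommGroup F] [InnerProductSpace ℝ F] {V : Type}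
    [NormedAddCommGroup V] [NormedSpace ℝ V] [FiniteDimensional ℝ V]

variable (d : CData F V)

/-- the induced Riemannian metric. -/
def gM : ContMDiffRiemannianMetric 𝓘(ℝ, V) ∞ V (fun x : Mfd d => TangentSpace 𝓘(ℝ, V) x) :=
  Imm.metric (inc d) (contMDiff_inc d) (D_inc_inj d)

/-- the Riemannian bundle structure. -/
@[reducible] def rb : RiemannianBundle (fun x : Mfd d => TangentSpace 𝓘(ℝ, V) x) :=
  ⟨(gM d).toRiemannianMetric⟩

attribute [local instance] rb

lemma enorm_eq (x : Mfd d) (v : TangentSpace 𝓘(ℝ, V) x) :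
    ‖v‖ₑ = ‖Imm.D (E := V) (inc d) x v‖ₑ := by
  have h : ‖v‖ = ‖Imm.D (E := V) (inc d) x v‖ := by
    rw [norm_eq_sqrt_real_inner, norm_eq_sqrt_real_inner]
    rfl
  rw [← ofReal_norm, ← ofReal_norm, h]

instance cb' : IsContinuousRiemannianBundle V (fun x : Mfd d => TangentSpace 𝓘(ℝ, V) x) :=
  ⟨(gM d).inner, (gM d).contMDiff.continuous, fun _ _ _ => rfl⟩

instance ccb : IsContMDiffRiemannianBundle 𝓘(ℝ, V) ∞ V
    (fun x : Mfd d => TangentSpace 𝓘(ℝ, V) x) := inferInstance

/-- the extended metric. -/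
@[reducible] def em : EMetricSpace (Mfd d) := EMetricSpace.ofRiemannianMetric 𝓘(ℝ, V) (Mfd d)

lemma lower (x y : Mfd d) : edist (inc d x) (inc d y) ≤ riemannianEDist 𝓘(ℝ, V) x y :=
  Imm.edist_le_riemannianEDist (inc d) (contMDiff_inc d) (enorm_eq d) x y

/-- maps of submanifolds not increasing the length of vectors -/
lemma riemannianEDist_map_le {F' : Type} [NormedAddCommGroup F'] [InnerProductSpace ℝ F']
    {V' : Type} [NormedAddCommGroup V'] [NormedSpace ℝ V'] [FiniteDimensional ℝ V']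
    (d' : CData F' V') (A : F →L[ℝ] F') (hA : ∀ v, ‖A v‖ ≤ ‖v‖)
    (g : Mfd d → Mfd d') (hg : ∀ x, inc d' (g x) = A (inc d x)) (x y : Mfd d) :
    riemannianEDist 𝓘(ℝ, V') (g x) (g y) ≤ riemannianEDist 𝓘(ℝ, V) x y := by
  have hgs : ContMDiff 𝓘(ℝ, V) 𝓘(ℝ, V') ∞ g := by
    apply contMDiff_of_inc
    have h : (fun y => inc d' (g y)) = A ∘ inc d := by
      funext y
      exact hg y
    rw [h]
    exact A.contDiff.contMDiff.comp (contMDiff_inc d)
  apply le_of_forall_gt
  intro r hr
  obtain ⟨c, h0, h1, hc, hlt⟩ := exists_lt_of_riemannianEDist_lt hr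
  have hgc : ContMDiffOn 𝓘(ℝ, ℝ) 𝓘(ℝ, V') 1 (g ∘ c) (Icc 0 1) :=
    (hgs.of_le (by simp)).comp_contMDiffOn hc
  refine lt_of_le_of_lt (riemannianEDist_le_pathELength hgc (by simp [h0]) (by simp [h1])
    zero_le_one) ?_
  rw [Imm.pathELength_eq (inc d) (contMDiff_inc d) (enorm_eq d) c hc] at hlt
  rw [Imm.pathELength_eq (inc d') (contMDiff_inc d') (enorm_eq d') _ hgc]
  refine lt_of_le_of_lt ?_ hlt
  apply setLIntegral_mono' measurableSet_Icc
  intro t ht
  have hcd : ContDiffOn ℝ 1 (inc d ∘ c) (Icc 0 1) := by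
    rw [← contMDiffOn_iff_contDiffOn]
    exact ((contMDiff_inc d).of_le (by simp)).comp_contMDiffOn hc
  have hda : DifferentiableWithinAt ℝ (inc d ∘ c) (Icc 0 1) t :=
    (hcd t ht).differentiableWithinAt (by simp)
  have h3 : inc d' ∘ g ∘ c = A ∘ (inc d ∘ c) := by
    funext t
    exact hg _
  have h4 : derivWithin (inc d' ∘ g ∘ c) (Icc 0 1) t = A (derivWithin (inc d ∘ c) (Icc 0 1) t) := by
    rw [h3]
    have := (A.hasFDerivAt (x := (inc d ∘ c) t)).comp_hasDerivWithinAt t hda.hasDerivWithinAt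
    exact this.derivWithin (uniqueDiffOn_Icc zero_lt_one t ht)
  rw [h4]
  rw [← ofReal_norm, ← ofReal_norm]
  exact ENNReal.ofReal_le_ofReal (hA _)

lemma edist_em (x y : Mfd d) : (em d).edist x y = riemannianEDist 𝓘(ℝ, V) x y := rfl

lemma edist_ne_top [PreconnectedSpace (Mfd d)] (x y : Mfd d) : (em d).edist x y ≠ ⊤ := by
  let _ : EMetricSpace (Mfd d) := em d
  have h1 : IsClopen (Metric.eball x ⊤) := ⟨Metric.isClosed_eball_top, Metric.isOpen_eball⟩
  have h3 : PreconnectedSpace (Mfd d) := inferInstance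
  have h2 : Metric.eball x ⊤ = univ := by
    apply h1.eq_univ
    exact ⟨x, by simp⟩
  have h4 : y ∈ Metric.eball x ⊤ := by rw [h2]; trivial
  have h5 : edist y x < ⊤ := h4
  rw [edist_comm] at h5
  exact h5.ne

/-- the Riemannian distance makes a connected submanifold a metric space. -/
@[reducible] def met [PreconnectedSpace (Mfd d)] : MetricSpace (Mfd d) :=
  @EMetricSpace.toMetricSpace (Mfd d) (em d) (edist_ne_top d)

lemma edist_met [PreconnectedSpace (Mfd d)] (x y : Mfd d) :
    (met d).toPseudoMetricSpace.toPseudoEMetricSpace.edist x y =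
    riemannianEDist 𝓘(ℝ, V) x y := rfl

lemma isRiem [PreconnectedSpace (Mfd d)] :
    letI : MetricSpace (Mfd d) := met d
    IsRiemannianManifold 𝓘(ℝ, V) (Mfd d) := by
  letI : MetricSpace (Mfd d) := met d
  exact ⟨fun x y => rfl⟩

end Pool.Agent.W538.Sub
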